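import Pool.Agent.Q210.NL.CLa
import Pool.Agent.Q177.BD.Cost
import Pool.Agent.Q238.BD.Gev
import Pool.Agent.Q202.BD.Leg

set_option autoImplicit false

namespace Pool.Agent.Q210.NL

open Pool.Agent

/-- **CL** -/
theorem t_CL (hDE : Pool.Agent.Q120.NL.J_DE) (hLN : Pool.Agent.Q120.NL.J_LN) : Pool.Agent.Q120.NL.J_CL :=
  t_CL' hDE hLN (Q177.BD.cost Q238.BD.gev Q202.BD.leg)

end Pool.Agent.Q210.NL
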