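import Pool.Agent.Q283.GM.BAD
import Pool.Agent.Q155.NL.Stm

/-!
# Few sets have labels which are not robustly regular (after `Pool.Agent.Q283.GM.BAD`)
-/

set_option autoImplicit false

open scoped Classical

namespace Pool.Agent.Q210.NL

open Finset Filter
open Q283.GM (Fam Ok SS HM QW FF mem_FF mem_FF' FF_card sml_small sml_few0 params Fam.P Fam.P.prime)
open Pool.Agent.Y703.CX (sm la eL zz kk kk_le ev_eL lin_le)
open Pool.Agent.Y703.CQ (nr Sml sml_of sml_add)
open Pool.Agent.Y495.CX.Few (PN eL_tendsto log_small zz_ge loglog_zz rpow_eq)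
open Pool.Agent.Y37.CX (Pm Pm_nonneg Pm_mono Pm_le)
open Pool.Agent.Y949.CQ (prod_pos_of prod_sub_le sub_range)

/-- a set of active primes with few large primes at which its product is not a square -/
def BadW (Φ : Fam) (m : ℕ) (S₀ S₁ : Finset ℕ) : Prop :=
  ∃ W : Finset ℕ, W ⊆ S₀ ∧ W.Nonempty ∧ (∀ u ∈ W, Φ.A u) ∧
    (S₁.filter fun p => Φ.A p ∧ ∑ u ∈ W, nr p u ≠ 0).card ≤ m

/-- few primes are not allowed -/
def TW (Φ : Fam) (m : ℕ) (W S : Finset ℕ) : Prop := (S.filter fun p => ¬ QW Φ W p).card ≤ m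

/-- the possible large parts -/
noncomputable def fam (Φ : Fam) (m : ℕ) (W : Finset ℕ) (Y : ℕ) : Finset (Finset ℕ) :=
  FF Φ.P (TW Φ m W) Y

/-- the number of sets with given small part -/
lemma fiberW (Φ : Fam) (X z m : ℕ) {S₀ E : Finset ℕ} (hS₀ : ∀ u ∈ S₀, u.Prime)
    (hEz : ∀ u ∈ E, u ≤ z) :
    ((SS Φ X).filter fun S => BadW Φ m (sm z S ∪ E) (la z S) ∧ sm z S = S₀).card ≤
      ∑ W ∈ (S₀ ∪ E).powerset, if W.Nonempty ∧ (∀ u ∈ W, Φ.A u) then
        (fam Φ m W (X / ∏ p ∈ S₀, p)).card else 0 := by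
  rw [← sum_filter]
  refine le_trans ?_ Finset.card_biUnion_le
  apply Finset.card_le_card_of_injOn (fun S => la z S)
  · intro S hS
    rw [mem_coe, mem_filter, SS, mem_filter, mem_powerset] at hS
    obtain ⟨⟨h1, h2, h4⟩, h5, h6⟩ := hS
    have hpr : ∀ p ∈ S, p.Prime := fun p hp => (h2 p hp).prime
    obtain ⟨W, hWS, hWn, hW1, h7⟩ := h5
    rw [h6] at hWS
    rw [mem_coe, mem_biUnion]
    refine ⟨W, ?_, ?_⟩
    · rw [mem_filter, mem_powerset]
      exact ⟨hWS, hWn, hW1⟩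
    · rw [fam, mem_FF' fun p h => h.prime]
      have hN : 0 < ∏ p ∈ S₀, p := prod_pos_of fun p hp => hS₀ p hp
      have hprod : ∏ p ∈ la z S, p ≤ X / ∏ p ∈ S₀, p := by
        rw [Nat.le_div_iff_mul_le hN, mul_comm, ← h6]
        have : (∏ p ∈ sm z S, p) * ∏ p ∈ la z S, p = ∏ p ∈ S, p :=
          prod_filter_mul_prod_filter_not _ _ _
        rw [this]
        exact h4
      refine ⟨fun p hp => h2 p (mem_filter.1 hp).1, hprod, ?_⟩
      refine (card_le_card ?_).trans h7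
      intro p hp
      rw [mem_filter] at hp ⊢
      refine ⟨hp.1, ?_⟩
      have hp2 := hp.2
      have hpP : Φ.P p := h2 p (mem_filter.1 hp.1).1
      have hpW : p ∉ W := by
        intro hpW
        rcases mem_union.1 (hWS hpW) with h8 | h8
        · rw [← h6, sm, mem_filter] at h8
          exact (mem_filter.1 hp.1).2 h8.2
        · exact (mem_filter.1 hp.1).2 (hEz p h8)
      unfold QW at hp2
      by_contra hc
      apply hp2
      refine ⟨hpP, fun ha => ⟨hpW, ?_⟩⟩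
      by_contra h9
      exact hc ⟨ha, h9⟩
  · intro S hS T hT h
    rw [mem_coe, mem_filter] at hS hT
    simp only at h
    have key : ∀ S : Finset ℕ, sm z S ∪ la z S = S := fun S => filter_union_filter_not_eq _ _
    rw [← key S, ← key T, hS.2.2, hT.2.2, h]

/-- **few sets have a bad set of active primes** -/
theorem sml_badW {Φ : Fam} {δ : ℝ} (hΦ : Ok Φ δ) : ∃ θ₀ : ℝ, 0 < θ₀ ∧ ∀ E : Finset ℕ,
    (∀ u ∈ E, u.Prime) → Sml (1 - δ) fun X => (((SS Φ X).filter fun S => S.card ≤ kk X ∧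
      BadW Φ ⌊θ₀ / 4 * eL X⌋₊ (sm (zz X) S ∪ E) (la (zz X) S)).card : ℝ) := by
  obtain ⟨C₁, h11, h1⟩ := FF_card
  obtain ⟨θ₀, C₂, hθ₀, h20, h2⟩ := hΦ.sq
  obtain ⟨C₅, h5up⟩ := hΦ.up
  refine ⟨θ₀, hθ₀, fun E hE => ?_⟩
  obtain ⟨θ, hθdef⟩ : ∃ θ : ℝ, θ = 2 / 5 * θ₀ := ⟨_, rfl⟩
  have hθ : 0 < θ := by rw [hθdef]; linarith
  have hlog4 : Real.log 4 / 4 < 7 / 20 := by
    have h1 : (4 : ℝ) = 2 ^ 2 := by norm_num
    rw [h1, Real.log_pow]
    have := Real.log_two_lt_d9
    push_cast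
    linarith
  obtain ⟨C₃, h30, h3⟩ := Pm_le
  set cE : ℝ := Real.log ((∏ u ∈ E, u : ℕ) : ℝ) with hcE
  have hcE0 : 0 ≤ cE := Real.log_natCast_nonneg _
  set K₀ : ℝ := |δ - 3 / 4 * θ₀| * Real.log 3 + C₂ * Real.log (11 + cE) + C₂ + |C₅| with hK₀
  apply sml_of (C := 2 ^ E.card * (3 * C₁ * Real.exp K₀) * Real.exp (2 * C₃))
    (a := 1 - δ + θ / 2) (by linarith)
  filter_upwards [params ((E.sup id : ℕ) : ℝ),
    eL_tendsto.eventually (log_small (4 * C₂ + 6) (θ / 2) (by linarith))] with X hX hsm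
  obtain ⟨hl2, hlE, hX3, h33, hk11⟩ := hX
  set ℓ : ℝ := eL X with hℓ
  set z : ℕ := zz X with hz
  set k : ℕ := kk X with hk
  have hlX' : Real.log X = Real.exp ℓ := by
    have := rpow_eq (X := X) hl2 1
    rwa [Real.rpow_one, one_mul] at this
  have hlX : 0 < Real.log X := by
    rw [hlX']
    exact Real.exp_pos _
  have hl0 : 0 < ℓ := by linarith
  have hl3 : (8 : ℝ) ≤ ℓ ^ 3 := by
    have := pow_le_pow_left₀ (by norm_num : (0 : ℝ) ≤ 2) hl2 3
    linarith
  have hz3 : 3 ≤ z := zz_ge hl2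
  have hEz : ∀ u ∈ E, u ≤ z := by
    intro u hu
    rw [hz]
    unfold zz
    apply Nat.le_floor
    rw [← hℓ]
    have h := Real.add_one_le_exp (ℓ ^ 3)
    have h5 : (u : ℝ) ≤ ((E.sup id : ℕ) : ℝ) := by
      have := Finset.le_sup (f := id) hu
      exact_mod_cast this
    have h6 : ℓ ≤ ℓ ^ 3 := by
      have : ℓ ^ 1 ≤ ℓ ^ 3 := pow_le_pow_right₀ (by linarith) (by norm_num)
      linarith
    linarith
  have hz1 : 1 ≤ z := by omega
  have hz0 : (0 : ℝ) < z := by exact_mod_cast hz1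
  have hzlog : Real.log z ≤ ℓ ^ 3 := by
    rw [Real.log_le_iff_le_exp hz0]
    exact Nat.floor_le (Real.exp_pos _).le
  have hzlog0 : 0 < Real.log z := Real.log_pos (by exact_mod_cast (by omega : 1 < z))
  have hl4 : (1 : ℝ) ≤ ℓ ^ 4 := one_le_pow₀ (by linarith)
  have hX0 : (0 : ℝ) < X := by exact_mod_cast (by omega : 0 < X)
  -- the size of the families
  set R : ℝ := 3 * C₁ * Real.exp (K₀ + ((δ - θ) * ℓ - ℓ) + 4 * C₂ * Real.log ℓ) with hR
  have hR0 : 0 ≤ R := by
    rw [hR]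
    positivity
  have key : ∀ S₀ : Finset ℕ, (∀ u ∈ S₀, u.Prime) → (∀ u ∈ S₀, u ≤ z) → S₀.card ≤ k →
      ∀ W ⊆ S₀ ∪ E, W.Nonempty → (∀ u ∈ W, Φ.A u) →
      ((fam Φ ⌊θ₀ / 4 * ℓ⌋₊ W (X / ∏ p ∈ S₀, p)).card : ℝ) ≤ (X : ℝ) / ((∏ p ∈ S₀, p : ℕ) : ℝ) * R := by
    intro S₀ hS₀ hSz hSk W hWS hWn hW1
    set N : ℕ := ∏ p ∈ S₀, p with hN
    have hN0 : 0 < N := prod_pos_of fun p hp => hS₀ p hp
    have hN0' : (0 : ℝ) < N := by exact_mod_cast hN0
    have hlN : Real.log N ≤ 11 * ℓ ^ 4 := by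
      have e1 : Real.log N = ∑ p ∈ S₀, Real.log p := by
        rw [hN]
        push_cast
        rw [Real.log_prod]
        intro p hp
        have := (hS₀ p hp).ne_zero
        exact_mod_cast this
      rw [e1]
      calc ∑ p ∈ S₀, Real.log p ≤ ∑ _p ∈ S₀, Real.log z := by
            refine sum_le_sum fun p hp => ?_
            exact Real.log_le_log (by exact_mod_cast (hS₀ p hp).pos) (by exact_mod_cast hSz p hp)
        _ = S₀.card * Real.log z := by rw [sum_const, nsmul_eq_mul]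
        _ ≤ (11 * ℓ) * ℓ ^ 3 := by
            refine mul_le_mul (le_trans (by exact_mod_cast hSk) hk11) hzlog hzlog0.le (by positivity)
        _ = 11 * ℓ ^ 4 := by ring
    set Y : ℕ := X / N with hY
    have hYle : (Y : ℝ) ≤ (X : ℝ) / N := Nat.cast_div_le
    have hYge : Real.exp (Real.log X / 3) ≤ Y := by
      have e1 : (X : ℝ) / N < Y + 1 := by
        rw [div_lt_iff₀ hN0']
        have := Nat.lt_mul_div_succ X hN0
        rw [← hY] at this
        have h' : ((X : ℕ) : ℝ) < ((N * (Y + 1) : ℕ) : ℝ) := by exact_mod_cast this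
        push_cast at h'
        linarith
      have e2 : Real.exp (Real.log X - Real.log N) = (X : ℝ) / N := by
        rw [Real.exp_sub, Real.exp_log hX0, Real.exp_log hN0']
      have e3 : Real.exp (Real.log X / 3 + 1) ≤ (X : ℝ) / N := by
        rw [← e2]
        apply Real.exp_le_exp.2
        linarith
      rw [Real.exp_add] at e3
      have e4 : (2 : ℝ) ≤ Real.exp 1 := by have := Real.exp_one_gt_d9; linarith
      have e5 : (1 : ℝ) ≤ Real.exp (Real.log X / 3) := Real.one_le_exp (by positivity)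
      nlinarith
    have hX16 : (9 : ℝ) ≤ Real.log X / 3 := by linarith
    have hY3 : 3 ≤ Y := by
      have e1 := Real.add_one_le_exp (Real.log X / 3)
      have e2 : (3 : ℝ) ≤ Y := by linarith
      exact_mod_cast e2
    have hY0 : (0 : ℝ) < Y := by exact_mod_cast (by omega : 0 < Y)
    have hlY : Real.log X / 3 ≤ Real.log Y := by
      rw [Real.le_log_iff_exp_le hY0]
      exact hYge
    have hYX : Y ≤ X := Nat.div_le_self _ _
    have hlYX : Real.log Y ≤ Real.log X := Real.log_le_log hY0 (by exact_mod_cast hYX)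
    have hlY0 : 0 < Real.log Y := by linarith
    -- the small factor
    have hlW : Real.log (Real.log ((∏ u ∈ W, u : ℕ) : ℝ)) ≤ Real.log (11 + cE) + 4 * Real.log ℓ := by
      have hWp : ∀ u ∈ W, u.Prime := fun u hu => (Φ.hA u (hW1 u hu)).1
      have e0 : (1 : ℝ) < ((∏ u ∈ W, u : ℕ) : ℝ) := by
        obtain ⟨u, hu⟩ := hWn
        have e5 : u ∣ ∏ u ∈ W, u := Finset.dvd_prod_of_mem _ hu
        have e6 := Nat.le_of_dvd (prod_pos_of hWp) e5
        exact_mod_cast (hWp u hu).one_lt.trans_le e6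
      have hEp : 0 < ∏ u ∈ E, u := prod_pos_of fun u hu => hE u hu
      have hEp' : (0 : ℝ) < ((∏ u ∈ E, u : ℕ) : ℝ) := by exact_mod_cast hEp
      have e1 : Real.log ((∏ u ∈ W, u : ℕ) : ℝ) ≤ (11 + cE) * ℓ ^ 4 := by
        have e7 : ∏ u ∈ W, u ≤ N * ∏ u ∈ E, u := by
          refine (prod_sub_le hWS ?_).trans ?_
          · intro u hu
            rcases mem_union.1 hu with h | h
            · exact hS₀ u h
            · exact hE u h
          · have e8 : (∏ u ∈ S₀ ∪ E, u) * ∏ u ∈ S₀ ∩ E, u = (∏ u ∈ S₀, u) * ∏ u ∈ E, u :=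
              Finset.prod_union_inter
            have e9 : 0 < ∏ u ∈ S₀ ∩ E, u :=
              prod_pos_of fun u hu => hS₀ u (mem_inter.1 hu).1
            rw [hN, ← e8]
            exact Nat.le_mul_of_pos_right _ e9
        have e10 : Real.log ((∏ u ∈ W, u : ℕ) : ℝ) ≤ Real.log N + cE := by
          rw [hcE, ← Real.log_mul hN0'.ne' hEp'.ne']
          refine Real.log_le_log (by linarith) ?_
          exact_mod_cast e7
        nlinarith
      have e2 : 0 < Real.log ((∏ u ∈ W, u : ℕ) : ℝ) := Real.log_pos e0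
      refine (Real.log_le_log e2 e1).trans (le_of_eq ?_)
      rw [Real.log_mul (by linarith) (by positivity), Real.log_pow]
      norm_num
    have hmain := h1 Φ.P (TW Φ ⌊θ₀ / 4 * ℓ⌋₊ W) Y (fun p => if ¬ QW Φ W p then (1 / 4 : ℝ) else 1)
      (Real.exp (Real.log 4 * (θ₀ / 4) * ℓ)) (fun p h => h.prime)
      (fun S h S' hS' => (card_le_card (filter_subset_filter _ hS')).trans h) (by omega)
      (fun p => by split_ifs <;> norm_num) (Real.exp_pos _).le (by
        intro S hS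
        rw [mem_FF] at hS
        rw [← prod_filter, prod_const]
        have g1 : (S.filter fun p => ¬ QW Φ W p).card ≤ ⌊θ₀ / 4 * ℓ⌋₊ := hS.2.2.2
        have g2 : (1 / 4 : ℝ) ^ ⌊θ₀ / 4 * ℓ⌋₊ ≤ (1 / 4 : ℝ) ^ (S.filter fun p => ¬ QW Φ W p).card :=
          pow_le_pow_of_le_one (by norm_num) (by norm_num) g1
        have g3 : Real.exp (-(Real.log 4 * (θ₀ / 4) * ℓ)) ≤ (1 / 4 : ℝ) ^ ⌊θ₀ / 4 * ℓ⌋₊ := by
          have e1 : (1 / 4 : ℝ) = Real.exp (-Real.log 4) := by
            rw [Real.exp_neg, Real.exp_log (by norm_num)]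
            norm_num
          rw [e1, ← Real.exp_nat_mul]
          apply Real.exp_le_exp.2
          have e2 : ((⌊θ₀ / 4 * ℓ⌋₊ : ℕ) : ℝ) ≤ θ₀ / 4 * ℓ := Nat.floor_le (by positivity)
          have e4 : 0 ≤ Real.log 4 := Real.log_nonneg (by norm_num)
          have e5 := mul_le_mul_of_nonneg_right e2 e4
          linarith
        calc (1 : ℝ) = Real.exp (Real.log 4 * (θ₀ / 4) * ℓ) *
              Real.exp (-(Real.log 4 * (θ₀ / 4) * ℓ)) := by
              rw [← Real.exp_add, add_neg_cancel, Real.exp_zero]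
          _ ≤ _ := mul_le_mul_of_nonneg_left (g3.trans g2) (Real.exp_pos _).le)
    have hs := h2 W Y hWn hW1 hY3
    have hs5 := h5up Y hY3
    have hloglog : (δ - 3 / 4 * θ₀) * Real.log (Real.log Y) ≤
        (δ - 3 / 4 * θ₀) * ℓ + |δ - 3 / 4 * θ₀| * Real.log 3 := by
      have e1 : Real.log (Real.log Y) ≤ ℓ := Real.log_le_log hlY0 hlYX
      have e2 : ℓ - Real.log 3 ≤ Real.log (Real.log Y) := by
        have e4 : Real.log (Real.log X / 3) = ℓ - Real.log 3 := by
          rw [Real.log_div hlX.ne' (by norm_num)]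
          rfl
        rw [← e4]
        exact Real.log_le_log (by positivity) hlY
      have e3 : 0 ≤ Real.log 3 := Real.log_nonneg (by norm_num)
      rcases le_or_gt 0 (δ - 3 / 4 * θ₀) with h | h
      · rw [abs_of_nonneg h]
        nlinarith
      · rw [abs_of_neg h]
        nlinarith
    have hwt : ∑ p ∈ (range (Y + 1)).filter (fun p => Φ.P p),
        (if ¬ QW Φ W p then (1 / 4 : ℝ) else 1) * (1 / (p : ℝ)) =
        1 / 4 * ∑ p ∈ (range (Y + 1)).filter (fun p => Φ.P p), (1 : ℝ) / p +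
        3 / 4 * ∑ p ∈ (range (Y + 1)).filter (fun p => QW Φ W p), (1 : ℝ) / p := by
      have g1 : ∀ p ∈ (range (Y + 1)).filter (fun p => Φ.P p),
          (if ¬ QW Φ W p then (1 / 4 : ℝ) else 1) * (1 / (p : ℝ)) =
          1 / 4 * ((1 : ℝ) / p) + 3 / 4 * (if QW Φ W p then (1 : ℝ) / p else 0) := by
        intro p _
        by_cases hq : QW Φ W p
        · rw [if_neg (not_not.mpr hq), if_pos hq]
          ring
        · rw [if_pos hq, if_neg hq]
          ring
      rw [sum_congr rfl g1, sum_add_distrib, ← mul_sum, ← mul_sum, ← sum_filter, filter_filter]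
      refine congrArg (fun t => 1 / 4 * ∑ p ∈ (range (Y + 1)).filter (fun p => Φ.P p),
        (1 : ℝ) / p + 3 / 4 * t) (sum_congr ?_ fun _ _ => rfl)
      ext p
      rw [mem_filter, mem_filter]
      exact ⟨fun h => ⟨h.1, h.2.2⟩, fun h => ⟨h.1, h.2.1, h.2⟩⟩
    have hb : Real.log 4 * (θ₀ / 4) * ℓ + ∑ p ∈ (range (Y + 1)).filter (fun p => Φ.P p),
        (if ¬ QW Φ W p then (1 / 4 : ℝ) else 1) * (1 / (p : ℝ)) ≤
        K₀ + (δ - θ) * ℓ + 4 * C₂ * Real.log ℓ := by
      have hU0 : 0 ≤ Real.log (11 + cE) + 4 * Real.log ℓ :=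
        add_nonneg (Real.log_nonneg (by linarith))
          (mul_nonneg (by norm_num) (Real.log_nonneg (by linarith)))
      have e1 := mul_le_mul_of_nonneg_left hlW h20
      have e3 : 0 ≤ C₂ * (Real.log (11 + cE) + 4 * Real.log ℓ) := mul_nonneg h20 hU0
      have e2 : ∑ p ∈ (range (Y + 1)).filter (fun p => QW Φ W p), (1 : ℝ) / p ≤
        (δ - θ₀) * Real.log (Real.log Y) +
          C₂ * Real.log (Real.log ((∏ u ∈ W, u : ℕ) : ℝ)) + C₂ := by
        refine le_trans (le_of_eq (sum_congr ?_ fun _ _ => rfl)) hs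
        ext p
        rw [mem_filter, mem_filter]
        exact Iff.rfl
      have e4 : C₅ ≤ |C₅| := le_abs_self _
      have e5 : 0 ≤ |C₅| := abs_nonneg _
      have e6 : Real.log 4 * (θ₀ / 4) * ℓ ≤ 7 / 20 * θ₀ * ℓ := by
        have hθl : 0 ≤ θ₀ * ℓ := mul_nonneg hθ₀.le hl0.le
        have := mul_le_mul_of_nonneg_right hlog4.le hθl
        linarith
      rw [hwt, hK₀, hθdef]
      linarith
    have hc : ((fam Φ ⌊θ₀ / 4 * ℓ⌋₊ W Y).card : ℝ) * (Real.log X / 3) ≤
        C₁ * ((X : ℝ) / N) * Real.exp (K₀ + (δ - θ) * ℓ + 4 * C₂ * Real.log ℓ) := by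
      rw [← Real.exp_add] at hmain
      refine (mul_le_mul_of_nonneg_left hlY (Nat.cast_nonneg _)).trans (hmain.trans ?_)
      have := Real.exp_le_exp.2 hb
      have hC1 : 0 ≤ C₁ := by linarith
      gcongr
    have hd : (X : ℝ) / N * R = (C₁ * ((X : ℝ) / N) *
        Real.exp (K₀ + (δ - θ) * ℓ + 4 * C₂ * Real.log ℓ)) / (Real.log X / 3) := by
      rw [hR, hlX', show K₀ + ((δ - θ) * ℓ - ℓ) + 4 * C₂ * Real.log ℓ =
        (K₀ + (δ - θ) * ℓ + 4 * C₂ * Real.log ℓ) - ℓ by ring, Real.exp_sub]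
      field_simp
    rw [hd, le_div_iff₀ (by positivity)]
    exact hc
  -- the sum over the small parts
  set B := (SS Φ X).filter fun S => S.card ≤ k ∧
    BadW Φ ⌊θ₀ / 4 * ℓ⌋₊ (sm z S ∪ E) (la z S) with hB
  set D := (range (z + 1)).filter fun p => p.Prime with hD
  set W := D.powerset.filter fun S => S.card ≤ k with hW
  have hmaps : ∀ S ∈ B, sm z S ∈ W := by
    intro S hS
    rw [hB, mem_filter, SS, mem_filter, mem_powerset] at hS
    obtain ⟨⟨k1, k2, k3⟩, k4, k5⟩ := hS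
    rw [hW, mem_filter, mem_powerset]
    refine ⟨fun p hp => ?_, (card_le_card (filter_subset _ _)).trans k4⟩
    obtain ⟨l1, l2⟩ := mem_filter.1 hp
    rw [hD, mem_filter, mem_range]
    exact ⟨by omega, (k2 p l1).prime⟩
  have hcard : (B.card : ℝ) ≤ ∑ S₀ ∈ W,
      2 ^ S₀.card * ((X : ℝ) / ((∏ p ∈ S₀, p : ℕ) : ℝ) * (2 ^ E.card * R)) := by
    rw [card_eq_sum_card_fiberwise (f := fun S => sm z S) (t := W) (fun S hS => hmaps S hS)]
    push_cast
    refine sum_le_sum fun S₀ hS₀ => ?_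
    rw [hW, mem_filter, mem_powerset] at hS₀
    have hpr : ∀ u ∈ S₀, u.Prime := fun u hu => (mem_filter.1 (hS₀.1 hu)).2
    have hle : ∀ u ∈ S₀, u ≤ z := fun u hu => by
      have := mem_range.1 (mem_filter.1 (hS₀.1 hu)).1
      omega
    have e1 : (B.filter fun S => sm z S = S₀).card ≤
        ((SS Φ X).filter fun S => BadW Φ ⌊θ₀ / 4 * ℓ⌋₊ (sm z S ∪ E) (la z S) ∧ sm z S = S₀).card := by
      refine card_le_card fun S hS => ?_
      rw [mem_filter, hB, mem_filter] at hS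
      rw [mem_filter]
      exact ⟨hS.1.1, hS.1.2.2, hS.2⟩
    have e2 := e1.trans (fiberW Φ X z ⌊θ₀ / 4 * ℓ⌋₊ hpr hEz)
    have e3 : ((B.filter fun S => sm z S = S₀).card : ℝ) ≤
        ∑ t ∈ (S₀ ∪ E).powerset, (X : ℝ) / ((∏ p ∈ S₀, p : ℕ) : ℝ) * R := by
      refine le_trans ((Nat.cast_le (α := ℝ)).2 e2) ?_
      rw [Nat.cast_sum]
      refine sum_le_sum fun t htS => ?_
      split_ifs with ht
      · exact key S₀ hpr hle hS₀.2 t (mem_powerset.1 htS) ht.1 ht.2
      · rw [Nat.cast_zero]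
        exact mul_nonneg (div_nonneg (Nat.cast_nonneg _) (by positivity)) hR0
    refine e3.trans ?_
    rw [sum_const, card_powerset, nsmul_eq_mul]
    push_cast
    have e4 : (2 : ℝ) ^ (S₀ ∪ E).card ≤ 2 ^ S₀.card * 2 ^ E.card := by
      rw [← pow_add]
      exact pow_le_pow_right₀ (by norm_num) (card_union_le _ _)
    have e5 : 0 ≤ (X : ℝ) / (∏ p ∈ S₀, (p : ℝ)) * R :=
      mul_nonneg (div_nonneg (Nat.cast_nonneg _) (prod_nonneg fun _ _ => Nat.cast_nonneg _)) hR0
    calc (2 : ℝ) ^ (S₀ ∪ E).card * ((X : ℝ) / (∏ p ∈ S₀, (p : ℝ)) * R) ≤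
        (2 ^ S₀.card * 2 ^ E.card) * ((X : ℝ) / (∏ p ∈ S₀, (p : ℝ)) * R) :=
          mul_le_mul_of_nonneg_right e4 e5
      _ = _ := by ring
  have hsum : ∑ S₀ ∈ W, 2 ^ S₀.card * ((X : ℝ) / ((∏ p ∈ S₀, p : ℕ) : ℝ) * (2 ^ E.card * R)) ≤
      X * (2 ^ E.card * R) * Real.exp (2 * Pm z) := by
    have e1 : ∀ S₀ ∈ W, 2 ^ S₀.card * ((X : ℝ) / ((∏ p ∈ S₀, p : ℕ) : ℝ) * (2 ^ E.card * R)) =
        X * (2 ^ E.card * R) * ∏ p ∈ S₀, (2 / (p : ℝ)) := by
      intro S₀ _
      rw [prod_div_distrib, prod_const]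
      push_cast
      ring
    rw [sum_congr rfl e1, ← mul_sum]
    have h2XR : 0 ≤ (X : ℝ) * (2 ^ E.card * R) := by positivity
    refine mul_le_mul_of_nonneg_left ?_ h2XR
    calc ∑ S₀ ∈ W, ∏ p ∈ S₀, (2 / (p : ℝ)) ≤ ∑ S₀ ∈ D.powerset, ∏ p ∈ S₀, (2 / (p : ℝ)) := by
          refine sum_le_sum_of_subset_of_nonneg (filter_subset _ _) fun S _ _ => ?_
          exact prod_nonneg fun _ _ => by positivity
      _ = ∏ p ∈ D, (1 + 2 / (p : ℝ)) := by rw [prod_one_add]
      _ ≤ ∏ p ∈ D, Real.exp (2 / (p : ℝ)) := by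
          refine prod_le_prod (fun _ _ => by positivity) fun p _ => ?_
          rw [add_comm]
          exact Real.add_one_le_exp _
      _ = Real.exp (∑ p ∈ D, 2 / (p : ℝ)) := by rw [Real.exp_sum]
      _ ≤ Real.exp (2 * Pm z) := by
          apply Real.exp_le_exp.2
          unfold Pm
          rw [mul_sum]
          have e2 : ∀ p : ℕ, 2 / (p : ℝ) = 2 * (1 / p) := fun p => by ring
          simp_rw [e2]
          refine sum_le_sum_of_subset_of_nonneg ?_ fun _ _ _ => by positivity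
          intro p hp
          rw [hD, mem_filter, mem_range] at hp
          rw [mem_filter, mem_Icc]
          exact ⟨⟨hp.2.pos, by omega⟩, hp.2⟩
  have hexp : Real.exp (2 * Pm z) ≤ Real.exp (2 * C₃) * Real.exp (6 * Real.log ℓ) := by
    have e1 := h3 z hz3
    have e2 := loglog_zz hl2
    rw [← hz, ← hℓ] at e2
    rw [← Real.exp_add]
    apply Real.exp_le_exp.2
    linarith
  have hXR : 0 ≤ (X : ℝ) * (2 ^ E.card * R) := by positivity
  calc (B.card : ℝ) ≤ X * (2 ^ E.card * R) * Real.exp (2 * Pm z) := hcard.trans hsum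
    _ ≤ X * (2 ^ E.card * R) * (Real.exp (2 * C₃) * Real.exp (6 * Real.log ℓ)) :=
        mul_le_mul_of_nonneg_left hexp hXR
    _ = 2 ^ E.card * (3 * C₁ * Real.exp K₀) * Real.exp (2 * C₃) * (X *
          Real.exp (((δ - θ) * ℓ - ℓ) + (4 * C₂ + 6) * Real.log ℓ)) := by
        rw [hR, show ((δ - θ) * ℓ - ℓ) + (4 * C₂ + 6) * Real.log ℓ =
          (((δ - θ) * ℓ - ℓ) + 4 * C₂ * Real.log ℓ) + 6 * Real.log ℓ by ring,
          Real.exp_add _ (6 * Real.log ℓ), add_assoc K₀, Real.exp_add K₀]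
        ring
    _ ≤ 2 ^ E.card * (3 * C₁ * Real.exp K₀) * Real.exp (2 * C₃) * (X *
          Real.exp (-(1 - δ + θ / 2) * ℓ)) := by
        have hC1 : 0 ≤ C₁ := by linarith
        have e9 : Real.exp (((δ - θ) * ℓ - ℓ) + (4 * C₂ + 6) * Real.log ℓ) ≤
            Real.exp (-(1 - δ + θ / 2) * ℓ) := by
          apply Real.exp_le_exp.2
          linarith
        gcongr


/-- **few sets have few large primes of a class with many primes** -/
theorem sml_fewA {Φ : Fam} {δ : ℝ} (hΦ : Ok Φ δ) {w : ℕ → Prop} (hw : ∀ p, w p → Φ.P p)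
    (hm : HM w) (A R : ℕ) : Sml (1 - δ) fun X => (((SS Φ X).filter fun S =>
      ((la (zz X) S).filter fun p => w p).card < A * (sm (zz X) S).card + R).card : ℝ) := by
  obtain ⟨θ, C₀, hθ, hm⟩ := hm
  have hA1 : (0 : ℝ) < A + 1 := by positivity
  have h1 := sml_add (sml_small Φ hΦ.pos (η := θ / (8 * (A + 1))) (by positivity))
    (sml_few0 hΦ hw hθ hm)
  intro ε hε
  filter_upwards [h1 ε hε, eL_tendsto.eventually (eventually_ge_atTop (max 2 (8 * R / θ)))]
    with X hX h8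
  have h9 : 2 ≤ eL X := (le_max_left _ _).trans h8
  have h10 : 8 * R / θ ≤ eL X := (le_max_right _ _).trans h8
  rw [div_le_iff₀ hθ] at h10
  refine le_trans ?_ hX
  have h11 : ((SS Φ X).filter fun S => ((la (zz X) S).filter fun p => w p).card <
      A * (sm (zz X) S).card + R) ⊆
      ((SS Φ X).filter fun S => θ / (8 * (A + 1)) * eL X < ((sm (zz X) S).card : ℝ)) ∪
        FF Φ.P (fun S => ((la (zz X) S).filter fun p => w p).card ≤ ⌊θ / 4 * eL X⌋₊) X := by
    intro S hS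
    rw [mem_filter] at hS
    rw [mem_union, mem_filter]
    by_cases hc : θ / (8 * (A + 1)) * eL X < ((sm (zz X) S).card : ℝ)
    · exact Or.inl ⟨hS.1, hc⟩
    · right
      rw [not_lt] at hc
      have h2 := hS.1
      unfold SS at h2
      rw [mem_filter, mem_powerset] at h2
      rw [mem_FF]
      refine ⟨h2.1, h2.2.1, h2.2.2, ?_⟩
      apply Nat.le_floor
      have h12 : ((((la (zz X) S).filter fun p => w p).card : ℕ) : ℝ) ≤
          A * ((sm (zz X) S).card : ℝ) + R := by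
        exact_mod_cast hS.2.le
      have h13 : (A + 1) * ((sm (zz X) S).card : ℝ) ≤ θ / 8 * eL X := by
        have := mul_le_mul_of_nonneg_left hc hA1.le
        refine this.trans (le_of_eq ?_)
        field_simp
      have h14 : (0 : ℝ) ≤ ((sm (zz X) S).card : ℝ) := Nat.cast_nonneg _
      linarith
  exact_mod_cast (card_le_card h11).trans (card_union_le _ _)

/-- **JOB NL-BAD** -/
theorem bad : Q155.NL.S_BAD := by
  intro Φ δ hΦ A R W hW
  obtain ⟨θ₀, hθ₀, h0⟩ := sml_badW hΦ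
  have hA1 : (0 : ℝ) < A + 1 := by positivity
  have h1 := sml_add (h0 W hW) (sml_add (sml_small Φ hΦ.pos (η := θ₀ / (8 * (A + 1)))
    (by positivity)) (sml_add (sml_fewA hΦ (w := Φ.A) (fun p h => Or.inl h) hΦ.act A
      (A * W.card + R)) (sml_fewA hΦ (w := Φ.B) (fun p h => Or.inr h) hΦ.pas A
      (A * W.card + R))))
  intro ε hε
  filter_upwards [h1 ε hε,
    eL_tendsto.eventually (eventually_ge_atTop (max 2 (8 * (A * W.card + R) / θ₀)))] with X hX h8
  have h9 : 2 ≤ eL X := (le_max_left _ _).trans h8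
  have h10 : 8 * (A * W.card + R) / θ₀ ≤ eL X := (le_max_right _ _).trans h8
  rw [div_le_iff₀ hθ₀] at h10
  refine le_trans ?_ hX
  have h11 : ((SS Φ X).filter fun S => S.card ≤ kk X ∧
      ¬ Q155.NL.Rg Φ A R W (sm (zz X) S) (la (zz X) S)) ⊆
      ((SS Φ X).filter fun S => S.card ≤ kk X ∧
        BadW Φ ⌊θ₀ / 4 * eL X⌋₊ (sm (zz X) S ∪ W) (la (zz X) S)) ∪
      (((SS Φ X).filter fun S => θ₀ / (8 * (A + 1)) * eL X < ((sm (zz X) S).card : ℝ)) ∪
      (((SS Φ X).filter fun S => ((la (zz X) S).filter fun p => Φ.A p).card <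
        A * (sm (zz X) S).card + (A * W.card + R)) ∪
      ((SS Φ X).filter fun S => ((la (zz X) S).filter fun p => Φ.B p).card <
        A * (sm (zz X) S).card + (A * W.card + R)))) := by
    intro S hS
    rw [mem_filter] at hS
    obtain ⟨hSS, hk, hb⟩ := hS
    simp only [mem_union, mem_filter]
    by_contra hcon
    push Not at hcon
    obtain ⟨c1, c2, c3, c4⟩ := hcon
    have c1 := c1 hSS hk
    have c2 := c2 hSS
    have c3 := c3 hSS
    have c4 := c4 hSS
    have hcardU : (sm (zz X) S ∪ W).card ≤ (sm (zz X) S).card + W.card := card_union_le _ _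
    have hL : A * (sm (zz X) S ∪ W).card + R ≤ A * (sm (zz X) S).card + (A * W.card + R) := by
      have := Nat.mul_le_mul_left A hcardU
      rw [mul_add] at this
      omega
    apply hb
    refine ⟨?_, hL.trans c3, ?_⟩
    · intro w hw hwn hwA
      by_contra hlt
      rw [not_le] at hlt
      apply c1
      refine ⟨w, hw, hwn, hwA, ?_⟩
      apply Nat.le_floor
      have h12 : (((la (zz X) S).filter fun p => Φ.A p ∧ ∑ u ∈ w, nr p u ≠ 0).card : ℝ) ≤
          A * ((sm (zz X) S).card : ℝ) + (A * W.card + R) := by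
        exact_mod_cast (hlt.le.trans hL)
      have h13 : (A + 1) * ((sm (zz X) S).card : ℝ) ≤ θ₀ / 8 * eL X := by
        have := mul_le_mul_of_nonneg_left c2 hA1.le
        refine this.trans (le_of_eq ?_)
        field_simp
      have h14 : (0 : ℝ) ≤ ((sm (zz X) S).card : ℝ) := Nat.cast_nonneg _
      linarith
    · refine hL.trans (c4.trans (card_le_card ?_))
      intro p hp
      rw [mem_filter] at hp ⊢
      exact ⟨hp.1, fun ha => Φ.dis p ha hp.2⟩
  refine le_trans ((Nat.cast_le (α := ℝ)).2 (card_le_card h11)) ?_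
  refine le_trans ((Nat.cast_le (α := ℝ)).2 (card_union_le _ _)) ?_
  rw [Nat.cast_add]
  refine add_le_add le_rfl ?_
  refine le_trans ((Nat.cast_le (α := ℝ)).2 (card_union_le _ _)) ?_
  rw [Nat.cast_add]
  refine add_le_add le_rfl ?_
  refine le_trans ((Nat.cast_le (α := ℝ)).2 (card_union_le _ _)) ?_
  rw [Nat.cast_add]

end Pool.Agent.Q210.NL
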