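import Pool.Agent.Q120.NL.Stm
import Pool.Agent.Q149.BD.U1

set_option autoImplicit false

/-!
# Project NL (helper120), job CL: the coefficients of the mollifier
-/

namespace Pool.Agent.Q210.NL

open Complex MeasureTheory Filter Topology Set
open Pool.Agent.Q286.BD (cl Wt V S_cost)
open Pool.Agent.Q286.GB Pool.Agent.Q120.NL
open Pool.Agent.Q149.BD (V_abs_le)

/-- the crude bound for the mollifier -/
theorem sum_le {β : ℝ} {φ : ℝ → ℝ} (hφ : Wt β φ) (O : LFn) (N : ℕ) (hN : 1 ≤ N) (L : ℝ) (s : ℂ) (hs : 0 ≤ s.re) :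
    ‖∑ n ∈ Finset.Icc 1 N, O.mu n * ((V φ (Real.log n / L) : ℝ) : ℂ) * (n : ℂ) ^ (-s)‖ ≤
      (∫ v, |φ v|) * (∑' n : ℕ, ‖O.mu n‖ * (n : ℝ) ^ (-2 : ℝ)) * (N : ℝ) ^ (2 : ℝ) := by
  have hM : 0 ≤ ∫ v, |φ v| := integral_nonneg fun v => abs_nonneg _
  calc ‖∑ n ∈ Finset.Icc 1 N, O.mu n * ((V φ (Real.log n / L) : ℝ) : ℂ) * (n : ℂ) ^ (-s)‖
      ≤ ∑ n ∈ Finset.Icc 1 N, (∫ v, |φ v|) * (N : ℝ) ^ (2 : ℝ) * (‖O.mu n‖ * (n : ℝ) ^ (-2 : ℝ)) := by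
        refine norm_sum_le_of_le _ fun n hn => ?_
        obtain ⟨hn1, hn2⟩ := Finset.mem_Icc.1 hn
        have hn0 : (0 : ℝ) < n := by exact_mod_cast hn1
        have e2 : ‖((V φ (Real.log n / L) : ℝ) : ℂ)‖ ≤ ∫ v, |φ v| := by
          rw [Complex.norm_real, Real.norm_eq_abs]
          exact V_abs_le hφ _
        have e3 : ‖(n : ℂ) ^ (-s)‖ ≤ 1 := by
          rw [Complex.norm_natCast_cpow_of_pos (by omega), neg_re]
          exact Real.rpow_le_one_of_one_le_of_nonpos (by exact_mod_cast hn1) (by linarith)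
        have e4 : (1 : ℝ) ≤ (N : ℝ) ^ (2 : ℝ) * (n : ℝ) ^ (-2 : ℝ) := by
          rw [Real.rpow_neg hn0.le, ← div_eq_mul_inv, one_le_div (by positivity)]
          exact Real.rpow_le_rpow hn0.le (by exact_mod_cast hn2) (by norm_num)
        rw [norm_mul, norm_mul]
        have h0 : 0 ≤ ‖O.mu n‖ * ∫ v, |φ v| := mul_nonneg (norm_nonneg _) hM
        calc ‖O.mu n‖ * ‖((V φ (Real.log n / L) : ℝ) : ℂ)‖ * ‖(n : ℂ) ^ (-s)‖
            ≤ ‖O.mu n‖ * (∫ v, |φ v|) * 1 := by gcongr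
          _ ≤ ‖O.mu n‖ * (∫ v, |φ v|) * ((N : ℝ) ^ (2 : ℝ) * (n : ℝ) ^ (-2 : ℝ)) :=
              mul_le_mul_of_nonneg_left e4 h0
          _ = (∫ v, |φ v|) * (N : ℝ) ^ (2 : ℝ) * (‖O.mu n‖ * (n : ℝ) ^ (-2 : ℝ)) := by ring
    _ = (∫ v, |φ v|) * (N : ℝ) ^ (2 : ℝ) * ∑ n ∈ Finset.Icc 1 N, ‖O.mu n‖ * (n : ℝ) ^ (-2 : ℝ) := by
        rw [Finset.mul_sum]
    _ ≤ (∫ v, |φ v|) * (N : ℝ) ^ (2 : ℝ) * ∑' n : ℕ, ‖O.mu n‖ * (n : ℝ) ^ (-2 : ℝ) := by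
        refine mul_le_mul_of_nonneg_left ?_ (by positivity)
        exact O.mu_sum.sum_le_tsum _ fun n _ => by positivity
    _ = _ := by ring

/-- **CL**, from the theorem `cost` of project BD -/
theorem t_CL' (hDE : J_DE) (hLN : J_LN) (hcost : S_cost) : J_CL := by
  intro O hRH m hm
  obtain ⟨β0, hβ0, hβ1, hdec⟩ := hDE O hRH m hm
  obtain ⟨φ, hφ, -, -⟩ := hcost ((β0 + 1) / 2) (by linarith) (by linarith) 1 le_rfl 1 one_pos
  obtain ⟨C1, L0, hC1, hL0, hd⟩ := hdec ((β0 + 1) / 2) (by linarith) (by linarith) φ hφ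
  have hm0 : 0 < 6 / m := by positivity
  obtain ⟨h, C3, hh0, hh4, hC3, hz3⟩ := hLN O hRH (6 / m) hm0
  obtain ⟨M, hM⟩ : ∃ M : ℝ, M = (∫ v, |φ v|) * (∑' n : ℕ, ‖O.mu n‖ * (n : ℝ) ^ (-2 : ℝ)) := ⟨_, rfl⟩
  have hM0 : 0 ≤ M := by
    rw [hM]
    exact mul_nonneg (integral_nonneg fun v => abs_nonneg _) (tsum_nonneg fun n => by positivity)
  have hC3M : 0 ≤ C3 * M := mul_nonneg hC3.le hM0
  obtain ⟨C, hC⟩ : ∃ C : ℝ, C = C1 + 1 + L0 + C3 * M := ⟨_, rfl⟩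
  have hC0 : 0 < C := by rw [hC]; linarith
  refine ⟨h, C, hh0, hh4, hC0, fun N hN => ?_⟩
  have hN1 : (2 : ℝ) ≤ N := by exact_mod_cast hN
  have hN0 : (0 : ℝ) < N := by linarith
  have hlN : 0 < Real.log N := Real.log_pos (by linarith)
  have hN2 : (1 : ℝ) ≤ (N : ℝ) ^ (2 : ℝ) := Real.one_le_rpow (by linarith) (by norm_num)
  have hpow : ∀ t : ℝ, (1 : ℝ) ≤ (1 + |t|) ^ (6 / m) := fun t =>
    Real.one_le_rpow (by linarith [abs_nonneg t]) hm0.le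
  by_cases hNL : L0 ≤ Real.log N
  · have hfl : ⌊Real.exp (Real.log N)⌋₊ = N := by
      rw [Real.exp_log hN0, Nat.floor_natCast]
    refine ⟨fun n => O.mu n * ((V φ (Real.log n / Real.log N) : ℝ) : ℂ),
      fun t d ht hd0 hd1 hg => ?_, fun s hs1 hs2 => ?_⟩
    · have hA : ∑ n ∈ Finset.Icc 1 N, O.mu n * ((V φ (Real.log n / Real.log N) : ℝ) : ℂ) * (n : ℂ) ^ (-cl t) =
          AA O.toLFn φ (Real.log N) (cl t) := by
        unfold AA
        rw [hfl]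
      rw [hA]
      have h1 := hd (Real.log N) hNL t d (by
        rw [Real.rpow_def_of_pos hN0, mul_comm] at ht
        exact ht) hd0 hd1 hg
      rw [norm_sub_rev]
      refine h1.trans ?_
      have h3 : 0 < 1 + Real.log N * d := by positivity
      refine div_le_div_of_nonneg_right (mul_le_mul_of_nonneg_right ?_ ?_) h3.le
      · rw [hC]; linarith
      · linarith [hpow t]
    · have h1 := sum_le hφ O.toLFn N (by omega) (Real.log N) s (by linarith)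
      rw [← hM] at h1
      have h2 : ‖1 - O.L s * ∑ n ∈ Finset.Icc 1 N,
          O.mu n * ((V φ (Real.log n / Real.log N) : ℝ) : ℂ) * (n : ℂ) ^ (-s)‖ ≤
          1 + ‖O.L s‖ * ‖∑ n ∈ Finset.Icc 1 N,
          O.mu n * ((V φ (Real.log n / Real.log N) : ℝ) : ℂ) * (n : ℂ) ^ (-s)‖ := by
        refine (norm_sub_le _ _).trans ?_
        rw [norm_one, norm_mul]
      refine h2.trans ?_
      have h3 := mul_le_mul (hz3 s hs1) h1 (norm_nonneg _) (mul_nonneg hC3.le (by linarith [hpow s.im]))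
      have h4 : (1 : ℝ) ≤ (N : ℝ) ^ (2 : ℝ) * (1 + |s.im|) ^ (6 / m) :=
        one_le_mul_of_one_le_of_one_le hN2 (hpow s.im)
      calc 1 + ‖O.L s‖ * ‖∑ n ∈ Finset.Icc 1 N,
          O.mu n * ((V φ (Real.log n / Real.log N) : ℝ) : ℂ) * (n : ℂ) ^ (-s)‖
          ≤ 1 * ((N : ℝ) ^ (2 : ℝ) * (1 + |s.im|) ^ (6 / m)) +
            C3 * (1 + |s.im|) ^ (6 / m) * (M * (N : ℝ) ^ (2 : ℝ)) := by linarith
        _ = (1 + C3 * M) * ((N : ℝ) ^ (2 : ℝ) * (1 + |s.im|) ^ (6 / m)) := by ring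
        _ ≤ C * ((N : ℝ) ^ (2 : ℝ) * (1 + |s.im|) ^ (6 / m)) :=
            mul_le_mul_of_nonneg_right (by rw [hC]; linarith) (by linarith)
        _ = C * (N : ℝ) ^ (2 : ℝ) * (1 + |s.im|) ^ (6 / m) := by ring
  · push Not at hNL
    have hz0 : ∀ s : ℂ, ‖1 - O.L s * ∑ n ∈ Finset.Icc 1 N, (0 : ℂ) * (n : ℂ) ^ (-s)‖ = 1 := by
      intro s
      simp
    refine ⟨fun _ => 0, fun t d ht hd0 hd1 hg => ?_, fun s hs1 hs2 => ?_⟩
    · rw [hz0]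
      rw [le_div_iff₀ (by positivity), one_mul]
      have h1 : Real.log N * d ≤ L0 := by nlinarith
      calc 1 + Real.log N * d ≤ C * 1 := by rw [hC]; linarith
        _ ≤ C * (1 + |t|) ^ (6 / m) := mul_le_mul_of_nonneg_left (hpow t) hC0.le
    · rw [hz0]
      have h1 : (1 : ℝ) ≤ C := by rw [hC]; linarith
      exact one_le_mul_of_one_le_of_one_le (one_le_mul_of_one_le_of_one_le h1 hN2) (hpow s.im)

end Pool.Agent.Q210.NL
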